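import Mathlib
import Pool.Agent.H26.KContDefs
import Pool.Agent.H26.KContProofs

open scoped ENNReal Topology
open MeasureTheory Set Filter

namespace Pool.Agent.Results.MP_37b4fc_an.KCont

open Pool.Agent.H26.KCont

/-- Q1 is false at `p = ∞` for every `θ` (one space and one operator for all `θ`), and true for
every finite `p` and every `θ`, even without the continuity of the restriction. -/
theorem result :
    (∃ (A0 A1 B0 B1 : Type) (_ : NormedAddCommGroup A0) (_ : NormedSpace ℂ A0)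
      (_ : NormedAddCommGroup A1) (_ : NormedSpace ℂ A1) (_ : NormedAddCommGroup B0)
      (_ : NormedSpace ℂ B0) (_ : NormedAddCommGroup B1) (_ : NormedSpace ℂ B1)
      (_ : CompleteSpace A0) (_ : CompleteSpace A1) (_ : CompleteSpace B0)
      (_ : CompleteSpace B1) (i : A1 →L[ℂ] A0) (j : B1 →L[ℂ] B0) (U : A0 → B0) (U1 : A1 → B1),
      HypH i j U U1 ∧ Continuous U1 ∧
      ∀ θ : ℝ, 0 < θ → θ < 1 → ¬ ContinuousK i j U θ ∞) ∧
    (∀ (A0 A1 B0 B1 : Type) [NormedAddCommGroup A0] [NormedSpace ℂ A0]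
      [NormedAddCommGroup A1] [NormedSpace ℂ A1] [NormedAddCommGroup B0] [NormedSpace ℂ B0]
      [NormedAddCommGroup B1] [NormedSpace ℂ B1] (i : A1 →L[ℂ] A0) (j : B1 →L[ℂ] B0)
      (U : A0 → B0) (U1 : A1 → B1), HypH i j U U1 →
      ∀ θ : ℝ, 0 < θ → θ < 1 → ∀ p : ℝ≥0∞, 1 ≤ p → p ≠ ∞ → ContinuousK i j U θ p) := by
  refine ⟨⟨E, E, E, E, inferInstance, inferInstance, inferInstance, inferInstance, inferInstance,
    inferInstance, inferInstance, inferInstance, inferInstance, inferInstance, inferInstance,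
    inferInstance, iMap, iMap, UMap, UOne, hypH_example, UOne_cont,
    fun θ h0 h1 => not_cont θ h0 h1⟩, ?_⟩
  intro A0 A1 B0 B1 _ _ _ _ _ _ _ _ i j U U1 H θ h0 _ p hp hp'
  exact continuousK H h0 hp hp'

end Pool.Agent.Results.MP_37b4fc_an.KCont
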